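import Mathlib

namespace Pool.Agent.Results.MP_b2f6ce_nt.Q2False

/-- the solution triples `(a, q, p)` with `a, q ≥ 1`, `p ≥ 0` -/
def Sol (n : ℕ) : Set (ℕ × ℕ × ℕ) :=
  {t | 1 ≤ t.1 ∧ 1 ≤ t.2.1 ∧ n = 2 * t.2.2 * t.2.1 * t.1 + t.1 * t.2.1 + t.2.1 + t.2.2}

def allLt (f : ℕ → Bool) (n : ℕ) : Bool := Nat.rec true (fun i ih => bif f i then ih else false) n

lemma allLt_spec (f : ℕ → Bool) (n : ℕ) (h : allLt f n = true) : ∀ i < n, f i = true := by
  induction n with
  | zero => intro i hi; omega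
  | succ n ih =>
    have h1 : (bif f n then allLt f n else false) = true := h
    cases hf : f n
    · rw [hf] at h1; exact absurd h1 (by simp)
    · rw [hf] at h1
      intro i hi
      rcases Nat.lt_succ_iff_lt_or_eq.mp hi with h2 | rfl
      · exact ih h1 i h2
      · exact hf

def L : List (ℕ × ℕ) := [(1, 0), (6, 913), (8, 9), (27, 1), (30, 97), (108, 1), (314, 39), (24894, 1)]

def ok (p q : ℕ) : Bool :=
  bif Nat.beq (Nat.mod (Nat.sub 99576 (Nat.add q p)) (Nat.mul (Nat.succ q) (Nat.succ (Nat.add p p)))) 0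
  then decide ((q + 1, p) ∈ L) else true

def row (p : ℕ) : Bool := allLt (ok p) (Nat.div (Nat.sub 99577 p) (Nat.add (Nat.add p p) 2))

def rows (a k : ℕ) : Bool := allLt (fun i => row (Nat.add a i)) k

lemma all_rows : rows 0 2 = true ∧ rows 2 10 = true ∧ rows 12 60 = true ∧ rows 72 400 = true ∧
    rows 472 3000 = true ∧ rows 3472 30000 = true :=
  ⟨by decide +kernel, by decide +kernel, by decide +kernel, by decide +kernel, by decide +kernel,
    by decide +kernel⟩

lemma row_true (p : ℕ) (hp : p < 33472) : row p = true := by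
  obtain ⟨h1, h2, h3, h4, h5, h6⟩ := all_rows
  have key : ∀ a k, rows a k = true → a ≤ p → p < a + k → row p = true := by
    intro a k h ha hk
    have := allLt_spec _ _ h (p - a) (by omega)
    rwa [show Nat.add a (p - a) = p from Nat.add_sub_cancel' ha] at this
  by_cases c1 : p < 2
  · exact key _ _ h1 (by omega) (by omega)
  by_cases c2 : p < 12
  · exact key _ _ h2 (by omega) (by omega)
  by_cases c3 : p < 72
  · exact key _ _ h3 (by omega) (by omega)
  by_cases c4 : p < 472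
  · exact key _ _ h4 (by omega) (by omega)
  by_cases c5 : p < 3472
  · exact key _ _ h5 (by omega) (by omega)
  · exact key _ _ h6 (by omega) (by omega)

lemma sub : Sol 99577 ⊆ (({(99576, 1, 0), (9, 6, 913), (655, 8, 9), (1229, 27, 1), (17, 30, 97),
    (307, 108, 1), (4, 314, 39), (1, 24894, 1)} : Finset (ℕ × ℕ × ℕ)) : Set (ℕ × ℕ × ℕ)) := by
  rintro ⟨a, q, p⟩ ⟨ha, hq, h⟩
  simp only at ha hq h
  obtain ⟨q, rfl⟩ : ∃ r, q = r + 1 := ⟨q - 1, by omega⟩
  obtain ⟨a, rfl⟩ : ∃ r, a = r + 1 := ⟨a - 1, by omega⟩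
  have h1 : (q + 1) * (p + p + 2) ≤ 99577 - p := by
    apply Nat.le_sub_of_add_le
    nlinarith [Nat.zero_le (p * q * a), Nat.zero_le (p * a), Nat.zero_le (q * a)]
  have hp : p < 33472 := by
    have : p + p + 2 ≤ (q + 1) * (p + p + 2) := Nat.le_mul_of_pos_left _ (by omega)
    omega
  have h2 := allLt_spec _ _ (row_true p hp) q
    (show q < (99577 - p) / (p + p + 2) from (Nat.le_div_iff_mul_le (by omega)).mpr h1)
  have h3 : (99576 - (q + p)) % ((q + 1) * (p + p + 1)) = 0 := by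
    have : 99576 - (q + p) = (q + 1) * (p + p + 1) * (a + 1) := by
      apply Nat.sub_eq_of_eq_add
      nlinarith
    rw [this, Nat.mul_mod_right]
  have h4 : ok p q = bif Nat.beq ((99576 - (q + p)) % ((q + 1) * (p + p + 1))) 0
      then decide ((q + 1, p) ∈ L) else true := rfl
  rw [h4, h3] at h2
  have h5 : (q + 1, p) ∈ L := by simpa using h2
  simp only [L, List.mem_cons, Prod.mk.injEq, List.not_mem_nil, or_false] at h5
  simp only [Finset.coe_insert, Finset.coe_singleton, Set.mem_insert_iff, Set.mem_singleton_iff,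
    Prod.mk.injEq]
  rcases h5 with ⟨h5, rfl⟩ | ⟨h5, rfl⟩ | ⟨h5, rfl⟩ | ⟨h5, rfl⟩ | ⟨h5, rfl⟩ | ⟨h5, rfl⟩ |
    ⟨h5, rfl⟩ | ⟨h5, rfl⟩ <;> rw [h5] at h ⊢ <;> omega

theorem result : ∃ n : ℕ, 1 ≤ n ∧ (Sol n).Finite ∧
    ((Sol n).ncard : ℤ) + 1 ≤ ⌊Real.log n⌋ - 2 := by
  refine ⟨99577, by norm_num, (Finset.finite_toSet _).subset sub, ?_⟩
  have h1 := Set.ncard_le_ncard sub (Finset.finite_toSet _)
  rw [Set.ncard_coe_finset] at h1
  have h2 : (Sol 99577).ncard ≤ 8 := h1.trans (by decide)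
  have h3 : (11 : ℤ) ≤ ⌊Real.log (99577 : ℕ)⌋ := by
    rw [Int.le_floor, Real.le_log_iff_exp_le (by norm_num)]
    have h4 := Real.exp_one_lt_d9
    have h5 : Real.exp ((11 : ℤ) : ℝ) = Real.exp 1 ^ 11 := by
      rw [← Real.exp_nat_mul]; norm_num
    rw [h5]
    calc Real.exp 1 ^ 11 ≤ 2.7182818286 ^ 11 :=
          pow_le_pow_left₀ (Real.exp_pos 1).le h4.le 11
      _ ≤ _ := by norm_num
  omega

end Pool.Agent.Results.MP_b2f6ce_nt.Q2False
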